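import Pool.Agent.H27.UF.Main

/-!
# The combination with the reduction to algebraic points
-/

set_option autoImplicit false

namespace Pool.Agent.H27.UF

open Set TopologicalSpace Pool.Agent.K4H23.UI Pool.Agent.K4H23.UI.ShimuraWorld

variable {G : ShimuraWorld} {F : Factors G}

theorem isAlg_proj (hG : IsGeometry G) (hF : IsFactored G F) (P : G.Obj) (p : G.Pt P)
    (L : Finset (F.Fac P)) (hp : IsAlg p) : IsAlg (F.proj P L p) := by
  have h := hG.overQbar_image _ (hF.proj_mor P L) _ hp
  rwa [image_singleton, (isSub_point hG _).1.closure_eq] at h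

/-- **Q1 for all data**: it is enough to consider algebraic Hodge generic points `p` and thick
subvarieties over `ℚ̄`. -/
theorem q1_all_iff (hG : IsGeometry G) (hDR : DawRen G) (hdec : Decomposes G)
    (hF : IsFactored G F) :
    (∀ (P : G.Obj) (p : G.Pt P), HodgeGeneric p → ∀ (X : G.Obj) (V : Set (G.Pt X)), Q1 p V) ↔
    ∀ (P : G.Obj) (p : G.Pt P), IsAlg p → HodgeGeneric p → ∀ (X : G.Obj)
      (J : Finset (F.Fac X)) (V : Set (G.Pt (F.Quo X J))), Thick F X J V → G.OverQbar V →
        (J.card - 1) * G.dim (univ : Set (G.Pt (F.Quo X J))) ≤ J.card * G.dim V →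
        G.dim (univ : Set (G.Pt P)) ≤ G.dim (univ : Set (G.Pt (F.Quo X J))) →
          ¬ V ⊆ closure (Orb p (F.Quo X J) ∩ V) := by
  constructor
  · intro h P p _ hp X J V hV _ hd1 hd2
    exact (q1_iff hG hF (fun _ _ => True) (fun _ _ _ _ => trivial) (G.dim V)).1
      (fun P p _ hp X V _ _ => h P p hp X V) P p trivial hp X J V hV le_rfl hd1 hd2
  · intro h P p hp X V
    obtain ⟨A, T, a, s, halg, hs, hgen, horb⟩ := hdec P p hp
    have h1 := q1_pair hG hDR a s halg hgen hs (fun X V h1 h2 => ?_) V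
    · unfold Q1 at h1 ⊢
      rw [horb X]
      exact h1
    · refine (q1_iff hG hF (fun _ p => IsAlg p) (fun P p L hp => isAlg_proj hG hF P p L hp)
        (G.dim V)).2 ?_ A a halg (hodgeGeneric_fst hG hgen) X V
          ⟨hG.overQbar_closed V h1, h2⟩ le_rfl
      intro P p hp1 hp2 Y J W hW _ hd1 hd2 hd3
      refine h P p hp1 hp2 Y J W hW ?_ hd1 hd2 hd3
      have h3 : closure (Orb p (F.Quo Y J) ∩ W) = W :=
        Subset.antisymm (closure_minimal inter_subset_right hW.1.1) hd3
      rw [← h3]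
      exact hG.overQbar_points _ fun x hx => isAlg_of_mem_orb hG hp2 hp1 hx.1

end Pool.Agent.H27.UF
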