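import Pool.Graph.R_pool_sql_team_seeded_c8625f6e.K4H23.UI.Defs

/-!
# Shimura varieties and their simple factors: a formal framework

The framework is `Pool.Agent.K4H23.UI.Defs`: a `ShimuraWorld` consists of the connected Shimura
varieties `Γ \ X⁺`, their points with the Zariski topology, products, morphisms, the dimension, the
special and the weakly special subvarieties; `IsGeometry` lists formal properties. Here the simple factors
are added.
-/

set_option autoImplicit false

namespace Pool.Agent.H27.UF

open Set TopologicalSpace Pool.Agent.K4H23.UI Pool.Agent.K4H23.UI.ShimuraWorld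

/-- The simple factors. `Fac X`: the (finitely many) `ℚ`-simple factors of the adjoint Shimura datum of
`X`. `Quo X J`, for a set `J` of factors: the Shimura variety `X_J` of the product of the factors in `J` (for
the image of the arithmetic group of `X`), `proj X J : X → X_J` the projection, and
`res X J J' : X_{J'} → X_J`, for `J ⊆ J'`, the projection. -/
structure Factors (G : ShimuraWorld) where
  Fac : G.Obj → Type
  fac : ∀ X, Fintype (Fac X)
  Quo : ∀ X : G.Obj, Finset (Fac X) → G.Obj
  proj : ∀ (X : G.Obj) (J : Finset (Fac X)), G.Pt X → G.Pt (Quo X J)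
  res : ∀ (X : G.Obj) (J J' : Finset (Fac X)), G.Pt (Quo X J') → G.Pt (Quo X J)

attribute [instance] Factors.fac

/-- The formal properties of the simple factors which are used. All of them are standard facts. -/
structure IsFactored (G : ShimuraWorld) (F : Factors G) : Prop where
  proj_mor : ∀ (X : G.Obj) (J : Finset (F.Fac X)), G.IsMor (F.proj X J)
  proj_surjective : ∀ (X : G.Obj) (J : Finset (F.Fac X)), Function.Surjective (F.proj X J)
  /-- `X` is finite over the product of all its simple factors. -/
  proj_finite : ∀ (X : G.Obj) (y : G.Pt (F.Quo X Finset.univ)) (R : Set (G.Pt X)), IsSub R →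
    R ⊆ F.proj X Finset.univ ⁻¹' {y} → G.dim R = 0
  res_mor : ∀ (X : G.Obj) (J J' : Finset (F.Fac X)), J ⊆ J' → G.IsMor (F.res X J J')
  res_proj : ∀ (X : G.Obj) (J J' : Finset (F.Fac X)), J ⊆ J' →
    ∀ x : G.Pt X, F.res X J J' (F.proj X J' x) = F.proj X J x
  /-- The dimension of `X_J` is the sum of the dimensions of the factors. -/
  dim_quo : ∀ (X : G.Obj) (J : Finset (F.Fac X)), G.dim (univ : Set (G.Pt (F.Quo X J))) =
    ∑ i ∈ J, G.dim (univ : Set (G.Pt (F.Quo X {i})))
  dim_pos : ∀ (X : G.Obj) (i : F.Fac X), 0 < G.dim (univ : Set (G.Pt (F.Quo X {i})))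
  /-- Weakly special subvarieties are Shimura varieties, up to finite maps: by definition `W` is
  the image under the finite morphism `f : Y → X` given by a subdatum `(H, X_H)` of a component `S` of
  the set of the points of `Y` with coordinate `y₂` in the second factor of a decomposition
  `(H^ad, X_H^ad) = (H₁, X₁) × (H₂, X₂)`, and `S` is finite over the Shimura variety `B` of `(H₁, X₁)`. -/
  ws_cover : ∀ (X : G.Obj) (W : Set (G.Pt X)), G.WeaklySpecial W →
    ∃ (Y B : G.Obj) (f : G.Pt Y → G.Pt X) (q : G.Pt Y → G.Pt B) (S : Set (G.Pt Y)),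
      G.IsMor f ∧ G.IsMor q ∧ G.WeaklySpecial S ∧ f '' S = W ∧ q '' S = univ ∧
      (∀ (x : G.Pt X) (R : Set (G.Pt Y)), IsSub R → R ⊆ f ⁻¹' {x} → G.dim R = 0) ∧
      (∀ (b : G.Pt B) (R : Set (G.Pt Y)), IsSub R → R ⊆ S ∩ q ⁻¹' {b} → G.dim R = 0)
  /-- If `x` is in `Σ_X(p)` then the adjoint Mumford-Tate datum of `x` is a quotient of that of the Hodge
  generic point `p`, hence the product of the factors in a set `L` of simple factors, so `x` is in
  `Σ_X(p_L)`, and `dim P_L` is the dimension of the smallest special subvariety containing `x`. -/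
  orb_factor : ∀ (P : G.Obj) (p : G.Pt P), HodgeGeneric p → ∀ (X : G.Obj) (x : G.Pt X),
    x ∈ Orb p X → ∃ L : Finset (F.Fac P), x ∈ Orb (F.proj P L p) X ∧
      G.dim (univ : Set (G.Pt (F.Quo P L))) ≤ G.dim (univ : Set (G.Pt X))

open Classical in
/-- The subvariety `V` of `X_J` is a *thick* subvariety: it is not `X_J`, it is contained in no
proper weakly special subvariety, and it maps dominantly to `X_{J \ {i}}` for every `i` in `J`. -/
def Thick {G : ShimuraWorld} (F : Factors G) (X : G.Obj) (J : Finset (F.Fac X))
    (V : Set (G.Pt (F.Quo X J))) : Prop :=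
  IsSub V ∧ V ≠ univ ∧ (∀ D, G.WeaklySpecial D → V ⊆ D → D = univ) ∧
    ∀ i ∈ J, closure (F.res X (J.erase i) J '' V) = univ

end Pool.Agent.H27.UF
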