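import Pool.Agent.H27.UF.Defs
import Pool.Agent.H27.ZPF.Abs
import Pool.Graph.R_pool_sql_team_seeded_c8625f6e.K4H23.UI.Main

/-!
# Adjoint-isomorphism orbits: the reduction to thick subvarieties of products of few factors
-/

set_option autoImplicit false

namespace Pool.Agent.H27.UF

open Set TopologicalSpace Pool.Agent.K4H23.UI Pool.Agent.K4H23.UI.ShimuraWorld
open Pool.Agent.H27.ZPF (dense_comp irr_finite)

variable {G : ShimuraWorld} {F : Factors G}

/-! ### orbits and morphisms -/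

/-- images -/
theorem orb_image (hG : IsGeometry G) {P : G.Obj} (p : G.Pt P) {X Y : G.Obj}
    {f : G.Pt Y → G.Pt X} (hf : G.IsMor f) {y : G.Pt Y} (hy : y ∈ Orb p Y) : f y ∈ Orb p X := by
  have hm : G.IsMor (fun y : G.Pt Y => G.pair (f y) y) := hG.mor_pair _ _ hf hG.mor_id
  refine orb_coordinate hG p X Y ((fun y : G.Pt Y => G.pair (f y) y) '' univ)
    (hG.sp_image _ hm _ (hG.sp_univ Y)) ?_ (f y) y ⟨y, mem_univ _, rfl⟩ hy
  intro z R hR hRz
  have h1 : R ⊆ {G.pair (f z) z} := by
    intro r hr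
    obtain ⟨⟨w, -, rfl⟩, h2⟩ := hRz hr
    have h3 : w = z := by
      have h4 : G.snd (G.pair (f w) w) = z := h2
      rwa [hG.snd_pair] at h4
    rw [h3]
    rfl
  have h2 := hG.dim_mono _ _ hR (isSub_point hG _) h1
  rw [hG.dim_point] at h2
  omega

/-- inverse images under finite morphisms -/
theorem orb_preimage (hG : IsGeometry G) {P : G.Obj} (p : G.Pt P) {X Y : G.Obj}
    {f : G.Pt Y → G.Pt X} (hf : G.IsMor f)
    (hfin : ∀ (x : G.Pt X) (R : Set (G.Pt Y)), IsSub R → R ⊆ f ⁻¹' {x} → G.dim R = 0)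
    {y : G.Pt Y} (hy : f y ∈ Orb p X) : y ∈ Orb p Y := by
  have hm : G.IsMor (fun y : G.Pt Y => G.pair y (f y)) := hG.mor_pair _ _ hG.mor_id hf
  refine orb_coordinate hG p Y X ((fun y : G.Pt Y => G.pair y (f y)) '' univ)
    (hG.sp_image _ hm _ (hG.sp_univ Y)) ?_ y (f y) ⟨y, mem_univ _, rfl⟩ hy
  intro x R hR hRx
  have h1 : closure (G.fst '' R) ⊆ f ⁻¹' {x} := by
    refine closure_minimal ?_ ((isSub_point hG x).1.preimage (hG.mor_continuous f hf))
    rintro _ ⟨r, hr, rfl⟩
    obtain ⟨⟨w, -, rfl⟩, h2⟩ := hRx hr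
    have h4 : G.snd (G.pair w (f w)) = x := h2
    rw [hG.snd_pair] at h4
    change f (G.fst (G.pair w (f w))) = x
    rw [hG.fst_pair, h4]
  have h2 := hfin x _ (isSub_image hG hG.mor_fst hR) h1
  have h3 := hG.dim_le_add (G.fst : G.Pt (G.prod Y X) → G.Pt Y) hG.mor_fst R hR 0 ?_
  · omega
  · intro z R' hR' hRz
    have h4 : R' ⊆ {G.pair z (f z)} := by
      intro r hr
      obtain ⟨hr1, hr2⟩ := hRz hr
      obtain ⟨⟨w, -, rfl⟩, -⟩ := hRx hr1
      have h5 : G.fst (G.pair w (f w)) = z := hr2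
      rw [hG.fst_pair] at h5
      rw [h5]
      rfl
    have h5 := hG.dim_mono _ _ hR' (isSub_point hG _) h4
    rw [hG.dim_point] at h5
    exact h5

/-- the projections of a Hodge generic point are Hodge generic -/
theorem generic_proj (hG : IsGeometry G) (hF : IsFactored G F) {P : G.Obj} {p : G.Pt P}
    (hp : HodgeGeneric p) (L : Finset (F.Fac P)) : HodgeGeneric (F.proj P L p) := by
  intro D hD hpD
  have hm := hF.proj_mor P L
  obtain ⟨C, hC, hpC⟩ := exists_comp hG (F := univ ∩ F.proj P L ⁻¹' D)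
    (isClosed_univ.inter ((hG.ws_isSub _ (hG.sp_ws _ hD)).1.preimage (hG.mor_continuous _ hm)))
    (isIrreducible_singleton (x := p)) (by
      rintro y rfl
      exact ⟨mem_univ _, hpD⟩)
  have h1 := hp C (hG.sp_comp _ hm univ D C (hG.sp_univ P) hD hC) (hpC rfl)
  rw [eq_univ_iff_forall]
  intro y
  obtain ⟨x, rfl⟩ := hF.proj_surjective P L y
  have h2 : x ∈ C := by
    rw [h1]
    trivial
  exact (hC.2.1 h2).2

/-! ### the first step -/

/-- from a subvariety which is not weakly special to one which is contained in no proper weakly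
special subvariety -/
theorem step1 (hG : IsGeometry G) (hF : IsFactored G F) {P : G.Obj} (p : G.Pt P) {X : G.Obj}
    {V : Set (G.Pt X)} (hV : IsSub V) (hd : V ⊆ closure (Orb p X ∩ V))
    (hws : ¬ G.WeaklySpecial V) :
    ∃ (B : G.Obj) (C : Set (G.Pt B)), IsSub C ∧ C ≠ univ ∧ G.dim C ≤ G.dim V ∧
      (∀ D, G.WeaklySpecial D → C ⊆ D → D = univ) ∧ C ⊆ closure (Orb p B ∩ C) := by
  classical
  obtain ⟨W, ⟨hW, hVW⟩, hmin⟩ := exists_min (fun W : Set (G.Pt X) => G.WeaklySpecial W ∧ V ⊆ W)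
    (fun W => G.dim W) ⟨univ, ws_univ hG X, subset_univ _⟩
  have hWs := hG.ws_isSub W hW
  have hlt : G.dim V < G.dim W := by
    by_contra hcon
    apply hws
    rw [hG.eq_of_dim_le V W hV hWs hVW (by omega)]
    exact hW
  obtain ⟨Y, B, f, q, S, hf, hq, hS, hfS, hqS, hffin, hqfin⟩ := hF.ws_cover X W hW
  have hSs := hG.ws_isSub S hS
  have hfc := hG.mor_continuous f hf
  have hqc := hG.mor_continuous q hq
  have := hG.noetherian Y
  obtain ⟨A, hA⟩ : ∃ A : Set (G.Pt Y), A = {y | y ∈ S ∧ f y ∈ Orb p X ∩ V} := ⟨_, rfl⟩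
  have hfA : f '' A = Orb p X ∩ V := by
    ext x
    constructor
    · rintro ⟨y, hy, rfl⟩
      rw [hA] at hy
      exact hy.2
    · intro hx
      have h1 : x ∈ f '' S := by
        rw [hfS]
        exact hVW hx.2
      obtain ⟨y, hy, rfl⟩ := h1
      refine ⟨y, ?_, rfl⟩
      rw [hA]
      exact ⟨hy, hx⟩
  obtain ⟨D, hD, hD1, hD2⟩ := dense_comp f hV.2 A (by rw [hfA]; exact hd)
  have hAS : A ⊆ S := by
    rw [hA]
    exact fun y hy => hy.1
  have hDS : D ⊆ S := hD1.trans (closure_minimal (inter_subset_left.trans hAS) hSs.1)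
  have hDV : closure (f '' D) = V := by
    refine Subset.antisymm (closure_minimal ?_ hV.1) (hD2.trans (closure_mono
      (image_mono inter_subset_right)))
    refine (image_mono hD1).trans ((image_closure_subset_closure_image hfc).trans
      (closure_minimal ?_ hV.1))
    rintro _ ⟨x, ⟨hx, -⟩, rfl⟩
    rw [hA] at hx
    exact hx.2.2
  have hdimD : G.dim D ≤ G.dim V := by
    have h1 := hG.dim_le_add f hf D hD 0 (fun x R hR hRx =>
      (hffin x R hR (hRx.trans inter_subset_right)).le)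
    rw [hDV] at h1
    omega
  have hC := isSub_image hG hq hD
  have hdimC := dim_image_le hG hq hD
  have hdimS : G.dim S ≤ G.dim W := by
    have h1 := hG.dim_le_add f hf S hSs 0 (fun x R hR hRx =>
      (hffin x R hR (hRx.trans inter_subset_right)).le)
    rw [hfS, hWs.1.closure_eq] at h1
    omega
  have hdimB : G.dim W ≤ G.dim (univ : Set (G.Pt B)) := by
    have h1 := hG.dim_le_add q hq S hSs 0 (fun x R hR hRx => (hqfin x R hR hRx).le)
    rw [hqS, closure_univ] at h1
    have h2 := dim_image_ws_le hG hf hS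
    rw [hfS] at h2
    omega
  refine ⟨B, closure (q '' D), hC, ?_, by omega, ?_, ?_⟩
  · intro h
    rw [h] at hdimC
    omega
  · intro E hE hCE
    obtain ⟨D', hD', hDD'⟩ := exists_comp hG (F := S ∩ q ⁻¹' E)
      (hSs.1.inter ((hG.ws_isSub E hE).1.preimage hqc)) hD.2
      (fun y hy => ⟨hDS hy, hCE (subset_closure ⟨y, hy, rfl⟩)⟩)
    have hD'w := hG.ws_comp q hq S E D' hS hE hD'
    have h1 := hG.ws_image f hf D' hD'w
    have h2 : V ⊆ f '' D' := by
      rw [← hDV]
      exact closure_minimal (image_mono hDD') (hG.ws_isSub _ h1).1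
    have h3 := hmin _ ⟨h1, h2⟩
    have h4 := dim_image_ws_le hG hf hD'w
    have h5 : D' = S := hG.eq_of_dim_le D' S hD'.1 hSs (fun y hy => (hD'.2.1 hy).1) (by omega)
    rw [eq_univ_iff_forall]
    intro b
    have h6 : b ∈ q '' S := by
      rw [hqS]
      trivial
    obtain ⟨y, hy, rfl⟩ := h6
    rw [← h5] at hy
    exact (hD'.2.1 hy).2
  · refine closure_minimal ?_ isClosed_closure
    refine (image_mono hD1).trans ((image_closure_subset_closure_image hqc).trans
      (closure_mono ?_))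
    rintro _ ⟨y, ⟨hy, hyD⟩, rfl⟩
    rw [hA] at hy
    exact ⟨orb_image hG p hq (orb_preimage hG p hf hffin hy.2.1),
      subset_closure ⟨y, hyD, rfl⟩⟩

/-! ### the second step -/

/-- the projection to a minimal set of factors -/
theorem step2 (hG : IsGeometry G) (hF : IsFactored G F) {P : G.Obj} (p : G.Pt P) {B : G.Obj}
    {C : Set (G.Pt B)} (hC : IsSub C) (hne : C ≠ univ)
    (hw : ∀ D, G.WeaklySpecial D → C ⊆ D → D = univ) (hd : C ⊆ closure (Orb p B ∩ C)) :
    ∃ (J : Finset (F.Fac B)) (V : Set (G.Pt (F.Quo B J))), Thick F B J V ∧ G.dim V ≤ G.dim C ∧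
      V ⊆ closure (Orb p (F.Quo B J) ∩ V) := by
  classical
  have huniv := isSub_univ hG B
  obtain ⟨J, hJ⟩ := (Finset.univ.filter fun J : Finset (F.Fac B) =>
    closure (F.proj B J '' C) ≠ univ).exists_minimal ⟨Finset.univ, by
      refine Finset.mem_filter.2 ⟨Finset.mem_univ _, fun h => hne ?_⟩
      have hm := hF.proj_mor B Finset.univ
      have h1 := dim_image_le hG hm hC
      rw [h] at h1
      have h2 := hG.dim_le_add _ hm univ huniv 0 (fun x R hR hRx =>
        (hF.proj_finite B x R hR (hRx.trans inter_subset_right)).le)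
      rw [image_univ, (hF.proj_surjective B Finset.univ).range_eq, closure_univ] at h2
      exact hG.eq_of_dim_le C univ hC huniv (subset_univ _) (by omega)⟩
  have hJ1 := (Finset.mem_filter.1 hJ.prop).2
  have hm := hF.proj_mor B J
  have hmc := hG.mor_continuous _ hm
  refine ⟨J, closure (F.proj B J '' C), ⟨isSub_image hG hm hC, hJ1, ?_, ?_⟩,
    dim_image_le hG hm hC, ?_⟩
  · intro D hD hVD
    obtain ⟨E, hE, hCE⟩ := exists_comp hG (F := univ ∩ F.proj B J ⁻¹' D)
      (isClosed_univ.inter ((hG.ws_isSub D hD).1.preimage hmc)) hC.2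
      (fun x hx => ⟨mem_univ _, hVD (subset_closure ⟨x, hx, rfl⟩)⟩)
    have h1 := hw E (hG.ws_comp _ hm univ D E (ws_univ hG B) hD hE) hCE
    rw [eq_univ_iff_forall]
    intro y
    obtain ⟨x, rfl⟩ := hF.proj_surjective B J y
    have h2 : x ∈ E := by
      rw [h1]
      trivial
    exact (hE.2.1 h2).2
  · intro i hi
    have h1 : closure (F.proj B (J.erase i) '' C) = univ := by
      by_contra hcon
      have h2 := hJ.eq_of_le (Finset.mem_filter.2 ⟨Finset.mem_univ _, hcon⟩)
        (Finset.erase_subset i J)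
      have h3 := Finset.notMem_erase i J
      rw [h2] at h3
      exact h3 hi
    have h2 : F.proj B (J.erase i) '' C ⊆
        F.res B (J.erase i) J '' closure (F.proj B J '' C) := by
      rintro _ ⟨x, hx, rfl⟩
      exact ⟨_, subset_closure ⟨x, hx, rfl⟩, hF.res_proj B _ _ (Finset.erase_subset i J) x⟩
    have h3 := closure_mono h2
    rw [h1] at h3
    convert eq_univ_of_univ_subset h3
  · refine closure_minimal ?_ isClosed_closure
    refine (image_mono hd).trans ((image_closure_subset_closure_image hmc).trans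
      (closure_mono ?_))
    rintro _ ⟨x, ⟨hx, hxC⟩, rfl⟩
    exact ⟨orb_image hG p hm hx, subset_closure ⟨x, hxC, rfl⟩⟩

/-! ### dimensions of thick subvarieties -/

theorem Thick.dim_le (hG : IsGeometry G) (hF : IsFactored G F) {X : G.Obj}
    {J : Finset (F.Fac X)} {V : Set (G.Pt (F.Quo X J))} (h : Thick F X J V) :
    (J.card - 1) * G.dim (univ : Set (G.Pt (F.Quo X J))) ≤ J.card * G.dim V := by
  classical
  obtain ⟨hV, -, -, hdom⟩ := h
  have h1 : ∀ i ∈ J, G.dim (univ : Set (G.Pt (F.Quo X J))) ≤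
      G.dim V + G.dim (univ : Set (G.Pt (F.Quo X {i}))) := by
    intro i hi
    have h2 := dim_image_le hG (hF.res_mor X _ _ (Finset.erase_subset i J)) hV
    have h3 : closure (F.res X (J.erase i) J '' V) = univ := by
      convert hdom i hi
    rw [h3, hF.dim_quo X (J.erase i)] at h2
    rw [hF.dim_quo X J, ← Finset.sum_erase_add J _ hi]
    omega
  have h2 := Finset.sum_le_sum h1
  rw [Finset.sum_const, Finset.sum_add_distrib, Finset.sum_const, ← hF.dim_quo X J,
    smul_eq_mul, smul_eq_mul] at h2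
  rw [Nat.sub_mul, one_mul]
  omega

/-- **The reduction.** -/
theorem q1_iff (hG : IsGeometry G) (hF : IsFactored G F) (C : ∀ P : G.Obj, G.Pt P → Prop)
    (hC : ∀ (P : G.Obj) (p : G.Pt P) (L : Finset (F.Fac P)), C P p → C _ (F.proj P L p)) (m : ℕ) :
    (∀ (P : G.Obj) (p : G.Pt P), C P p → HodgeGeneric p → ∀ (X : G.Obj) (V : Set (G.Pt X)),
      IsSub V → G.dim V ≤ m → Q1 p V) ↔
    ∀ (P : G.Obj) (p : G.Pt P), C P p → HodgeGeneric p → ∀ (X : G.Obj) (J : Finset (F.Fac X))
      (V : Set (G.Pt (F.Quo X J))), Thick F X J V → G.dim V ≤ m →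
        (J.card - 1) * G.dim (univ : Set (G.Pt (F.Quo X J))) ≤ J.card * G.dim V →
        G.dim (univ : Set (G.Pt P)) ≤ G.dim (univ : Set (G.Pt (F.Quo X J))) →
          ¬ V ⊆ closure (Orb p (F.Quo X J) ∩ V) := by
  classical
  constructor
  · intro h P p hCp hp X J V hV hm _ _ hd
    obtain ⟨hVs, hne, hw, -⟩ := hV
    obtain ⟨E, hE, hEw, hEV⟩ := h P p hCp hp _ V hVs hm
    have h1 : V ⊆ ⋃ W ∈ hE.toFinset, W := by
      intro x hx
      have h2 := hd hx
      rw [hEV] at h2
      obtain ⟨W, hW, hxW⟩ := h2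
      exact mem_iUnion₂.2 ⟨W, hE.mem_toFinset.2 hW, hxW⟩
    obtain ⟨W, hW, h2⟩ := irr_finite hVs.2 hE.toFinset id (fun W hW =>
      (hG.ws_isSub W (hEw W (hE.mem_toFinset.1 hW))).1) h1
    have hW' := hE.mem_toFinset.1 hW
    have h3 : W ⊆ V := by
      have h4 : W ⊆ closure (Orb p (F.Quo X J) ∩ V) := by
        rw [hEV]
        exact subset_sUnion_of_mem hW'
      exact h4.trans (closure_minimal inter_subset_right hVs.1)
    have h4 := hw W (hEw W hW') h2
    rw [h4] at h3
    exact hne (eq_univ_of_univ_subset h3)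
  · intro h P p hCp hp X V hV hm
    -- the statement for subsets in which the points are dense
    have key : ∀ C : Set (G.Pt X), IsSub C → G.dim C ≤ m → C ⊆ closure (Orb p X ∩ C) →
        G.WeaklySpecial C := by
      intro V hV hm hd
      by_contra hws
      obtain ⟨B, D, hD, hne, hDm, hw, hDd⟩ := step1 hG hF p hV hd hws
      obtain ⟨J, W, hW, hWm, hWd⟩ := step2 hG hF p hD hne hw hDd
      -- the factors of the point
      have h1 : W ⊆ ⋃ L ∈ (Finset.univ : Finset (Finset (F.Fac P))),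
          closure {x | x ∈ Orb (F.proj P L p) (F.Quo B J) ∩ W ∧
            G.dim (univ : Set (G.Pt (F.Quo P L))) ≤
              G.dim (univ : Set (G.Pt (F.Quo B J)))} := by
        refine hWd.trans (closure_minimal ?_ (isClosed_biUnion_finset fun _ _ =>
          isClosed_closure))
        rintro x ⟨hx, hxW⟩
        obtain ⟨L, hL1, hL2⟩ := hF.orb_factor P p hp _ x hx
        exact mem_iUnion₂.2 ⟨L, Finset.mem_univ _, subset_closure ⟨⟨hL1, hxW⟩, hL2⟩⟩
      obtain ⟨L, -, hL⟩ := irr_finite hW.1.2 _ _ (fun _ _ => isClosed_closure) h1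
      have hLd : G.dim (univ : Set (G.Pt (F.Quo P L))) ≤
          G.dim (univ : Set (G.Pt (F.Quo B J))) := by
        obtain ⟨x, hx⟩ := hW.1.2.1
        obtain ⟨y, hy⟩ := closure_nonempty_iff.1 ⟨x, hL hx⟩
        exact hy.2
      refine h _ (F.proj P L p) (hC P p L hCp) (generic_proj hG hF hp L) B J W hW (by omega)
        (hW.dim_le hG hF) hLd (hL.trans (closure_mono fun x hx => hx.1))
    have := hG.noetherian X
    obtain ⟨E, hE, hEC, hEV⟩ := exists_dense_components (Orb p X ∩ V)
    refine ⟨E, hE, fun C hCE => key C (hEC C hCE).1 ?_ ?_, hEV⟩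
    · have h1 : C ⊆ V := (hEC C hCE).2.2.trans (closure_minimal inter_subset_right hV.1)
      exact (hG.dim_mono C V (hEC C hCE).1 hV h1).trans hm
    · refine (hEC C hCE).2.1.trans (closure_mono ?_)
      rintro x ⟨⟨h1, -⟩, h3⟩
      exact ⟨h1, h3⟩

end Pool.Agent.H27.UF
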